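import Mathlib
import Pool.Agent.H.MP_8f9e48_lc.Gen
namespace Pool.Agent.Results.MP_8f9e48_lc.Complete

def mapSym {X Y N M : Type} (fN : N → M) (fT : X → Y) : Symbol X N → Symbol Y M
  | .terminal x => .terminal (fT x)
  | .nonterminal A => .nonterminal (fN A)

def IsInterp {T : Type} (G : ContextFreeGrammar T) (G' : ContextFreeGrammar ℕ) : Prop :=
  ∃ (fN : G'.NT → G.NT) (fT : ℕ → T), fN G'.initial = G.initial ∧
    ∀ r ∈ G'.rules, (⟨fN r.input, r.output.map (mapSym fN fT)⟩ : ContextFreeRule T G.NT) ∈ G.rules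

def Fam {T : Type} (G : ContextFreeGrammar T) : Set (Language ℕ) :=
  {L | ∃ G' : ContextFreeGrammar ℕ, IsInterp G G' ∧ G'.language = L}

open Classical in
noncomputable def restrict {T : Type} (H : ContextFreeGrammar T) (a : T) : ContextFreeGrammar T :=
  ⟨H.NT, H.initial, H.rules.filter fun r => ∀ b, Symbol.terminal b ∈ r.output → b = a⟩

open Pool.Agent.H.MP_8f9e48_lc

lemma mapSym_eq {X Y N M : Type} (fN : N → M) (fT : X → Y) : mapSym fN fT = ms fN fT := by
  funext c; cases c <;> rfl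

lemma fam_iff {T : Type} (G : ContextFreeGrammar T) (L : Language ℕ) :
    L ∈ Fam G ↔ ∃ (N : Type) (S : N) (R : Set (ContextFreeRule ℕ N))
      (fN : N → G.NT) (fT : ℕ → T), R.Finite ∧ fN S = G.initial ∧
        (∀ r ∈ R, mr fN fT r ∈ G.rules) ∧ L = {w | Gen R [.nonterminal S] w} := by
  constructor
  · rintro ⟨G', ⟨fN, fT, h1, h2⟩, rfl⟩
    refine ⟨G'.NT, G'.initial, G'.rules, fN, fT, G'.rules.finite_toSet, h1, fun r hr => ?_, ?_⟩
    · simpa only [mapSym_eq, mr] using h2 r hr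
    · ext w
      exact gen_iff G' _ w
  · rintro ⟨N, S, R, fN, fT, h1, h2, h3, rfl⟩
    refine ⟨⟨N, S, h1.toFinset⟩, ⟨fN, fT, h2, fun r hr => ?_⟩, ?_⟩
    · simpa only [mapSym_eq, mr] using h3 r (h1.mem_toFinset.mp hr)
    · ext w
      refine (gen_iff ⟨N, S, h1.toFinset⟩ _ w).trans ?_
      simp only [Set.Finite.coe_toFinset]
      rfl

lemma mem_restrict {T : Type} (H : ContextFreeGrammar T) (a : T) (r : ContextFreeRule T H.NT) :
    r ∈ (restrict H a).rules ↔ r ∈ H.rules ∧ ∀ b, Symbol.terminal b ∈ r.output → b = a := by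
  unfold restrict
  simp only [Finset.mem_filter]

theorem result (G : ContextFreeGrammar Unit) (hG : ∀ r ∈ G.rules, r.output ≠ [])
    (T : Type) [Fintype T] [Nontrivial T] (H : ContextFreeGrammar T)
    (hH : ∀ r ∈ H.rules, r.output ≠ []) (h : Fam H = Fam G) :
    ∃ a : T, Fam (restrict H a) = Fam G := by
  classical
  have hU : ∀ L : Language ℕ, U G () L ↔ L ∈ Fam G := by
    intro L
    rw [fam_iff]
    constructor
    · rintro ⟨N, S, R, fN, h1, h2, h3, h4⟩
      exact ⟨N, S, R, fN, _, h1, h2, h3, h4⟩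
    · rintro ⟨N, S, R, fN, fT, h1, h2, h3, h4⟩
      exact ⟨N, S, R, fN, h1, h2, h3, h4⟩
  obtain ⟨c, hc⟩ := main G () H hG hH fun L hL => (fam_iff H L).mp (h ▸ (hU L).mp hL)
  refine ⟨c, Set.Subset.antisymm (fun L hL => ?_) fun L hL => ?_⟩
  · rw [← h]
    obtain ⟨N, S, R, fN, fT, h1, h2, h3, h4⟩ := (fam_iff _ L).mp hL
    exact (fam_iff H L).mpr ⟨N, S, R, fN, fT, h1, h2, fun r hr => ((mem_restrict H c _).mp (h3 r hr)).1, h4⟩
  · obtain ⟨N, S, R, fN, h1, h2, h3, h4⟩ := hc L ((hU L).mpr hL)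
    refine (fam_iff _ L).mpr ⟨N, S, R, fN, fun _ => c, h1, h2, fun r hr => ?_, h4⟩
    refine (mem_restrict H c _).mpr ⟨h3 r hr, fun b hb => ?_⟩
    obtain ⟨s, -, hs⟩ := List.mem_map.mp hb
    cases s with
    | terminal x => cases hs; rfl
    | nonterminal A => cases hs

end Pool.Agent.Results.MP_8f9e48_lc.Complete
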